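import Mathlib
import Pool.Agent.Helper62.Stmt
import Pool.Agent.Helper62.Machine

/-!
Fast computation of expanded Fricke trace polynomials on a Turing machine.
-/

set_option autoImplicit false

namespace Pool.Agent.Results.MP_727554_lc.FastFricke

open Pool.Agent.Helper62

/-- There is a deterministic multi-stack Turing machine, with finite alphabets, which on every
word `w` of length `n` writes the dense table of all coefficients of the Fricke trace polynomial
of `w` and halts after at most `C * (n + 1) ^ 4 * (log₂ (n + 2)) ^ 5` steps. -/
theorem result : ∃ fr : List Letter → MvPolynomial (Fin 3) ℤ,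
    (∀ w, IsFricke w (fr w) ∧ (∀ g, IsFricke w g → g = fr w) ∧
      (fr w).totalDegree ≤ w.length) ∧
    ∃ (M : Turing.TM2ComputableInTime (id : List Letter → List Letter)
        (id : List OutSym → List OutSym) (fun w => denseTable w.length (fr w))) (C : ℕ),
      (∀ k, Finite (M.tm.Γ k)) ∧
      ∀ n, M.time n ≤ C * ((n + 1) ^ 4 * Nat.log 2 (n + 2) ^ 5) :=
  ⟨frP, fun w => ⟨isFricke_frP w, fun _ hg => fricke_unique hg (isFricke_frP w),
    frP_totalDegree w⟩, theComp, _, theTM_finite, time_bound⟩

end Pool.Agent.Results.MP_727554_lc.FastFricke
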