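import Mathlib
import Pool.Agent.Helper62.Stmt
import Pool.Agent.Helper62.Machine
import Pool.Agent.Helper62.Out.Count

/-!
Expanded Fricke trace polynomials in time nearly linear in the worst case output size.
-/

set_option autoImplicit false

namespace Pool.Agent.Results.MP_727554_lc.NearLinearWorstCase

open Pool.Agent.Helper62

/-- There is a deterministic multi-stack Turing machine, with finite alphabets, which on every
word `v` of length `n` writes the dense table of the Fricke trace polynomial of `v`, and whose
running time on all words of length `n` is at most a constant times `(log₂ (n + 2)) ^ 5` times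
the total number of binary digits of the nonzero coefficients of the Fricke polynomial of some
word of length `n`; moreover this number of digits is at least a constant times `(n + 1) ^ 4`. -/
theorem result : ∃ fr : List Letter → MvPolynomial (Fin 3) ℤ,
    (∀ w, IsFricke w (fr w) ∧ (∀ g, IsFricke w g → g = fr w)) ∧
    ∃ (M : Turing.TM2ComputableInTime (id : List Letter → List Letter)
        (id : List OutSym → List OutSym) (fun w => denseTable w.length (fr w))) (C : ℕ),
      (∀ k, Finite (M.tm.Γ k)) ∧
      ∀ n, ∃ w : List Letter, w.length = n ∧
        M.time n ≤ C * (numBits (fr w) * Nat.log 2 (n + 2) ^ 5) ∧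
        numBits (fr w) ≤ (denseTable n (fr w)).length ∧
        (n + 1) ^ 4 ≤ C * numBits (fr w) := by
  refine ⟨frP, fun w => ⟨isFricke_frP w, fun _ hg => fricke_unique hg (isFricke_frP w)⟩,
    theComp, 30000000000 * 16 * 1024 * 259200, theTM_finite, fun n => ?_⟩
  obtain ⟨w, hw, hb⟩ := exists_big n
  refine ⟨w, hw, ?_, numBits_le_dense n _ (hw ▸ frP_totalDegree w), ?_⟩
  · calc theComp.time n ≤ 30000000000 * 16 * 1024 * ((n + 1) ^ 4 * Nat.log 2 (n + 2) ^ 5) :=
          time_bound n
      _ ≤ 30000000000 * 16 * 1024 * (259200 * numBits (frP w) * Nat.log 2 (n + 2) ^ 5) := by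
          gcongr
      _ = _ := by ring
  · exact hb.trans (Nat.mul_le_mul_right _ (by norm_num))

end Pool.Agent.Results.MP_727554_lc.NearLinearWorstCase
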